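import Pool.Agent.Helper73.F2.St

/-!
# Project F2 (MP_7b75b3_co): module ATT
-/

namespace Pool.Agent.Helper43.F2

open _root_.F2 Finset

theorem hATT : StATT := by
  intro V κ _ _ _ _ G b X P hD hF hP n y y' hy hy' h1 h2
  rcases h1 with h1 | ⟨hm, a, ha, hne, hb, hay⟩
  · rcases h2 with h2 | ⟨hm', _⟩
    · rw [← h1, ← h2]
    · subst h1
      exact absurd hm'.1 hy.2
  · rcases h2 with h2 | ⟨hm', a', ha', hne', hb', hay'⟩
    · subst h2
      exact absurd hm.1 hy'.2
    · have haa : a = a' := by
        by_contra hne''
        have h4 := hF (b n)
        have h2 : (X.filter (fun x => b x = b n)).card = 2 := hP.two (b n) hm.1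
        have h3 : ({n, a, a'} : Finset V).card = 3 :=
          Finset.card_eq_three.mpr ⟨n, a, a', hne.symm, hne'.symm, hne'', rfl⟩
        have hdis : Disjoint (X.filter (fun x => b x = b n)) ({n, a, a'} : Finset V) := by
          rw [Finset.disjoint_left]
          intro z hz hz'
          rw [Finset.mem_filter] at hz
          simp only [Finset.mem_insert, Finset.mem_singleton] at hz'
          rcases hz' with h | h | h
          · exact hm.2 (h ▸ hz.1)
          · exact ha.2 (h ▸ hz.1)
          · exact ha'.2 (h ▸ hz.1)
        have hsub : (X.filter (fun x => b x = b n)) ∪ ({n, a, a'} : Finset V) ⊆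
            univ.filter (fun v => b v = b n) := by
          intro z hz
          rw [Finset.mem_filter]
          refine ⟨Finset.mem_univ _, ?_⟩
          rw [Finset.mem_union, Finset.mem_filter] at hz
          simp only [Finset.mem_insert, Finset.mem_singleton] at hz
          rcases hz with h | h | h | h
          · exact h.2
          · rw [h]
          · rw [h, hb]
          · rw [h, hb']
        have h5 := Finset.card_le_card hsub
        rw [Finset.card_union_of_disjoint hdis, h2, h3, h4] at h5
        omega
      subst haa
      obtain ⟨x, hx, hax⟩ := hP.near a ha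
      rcases hD a y y' x hay hay' hax with h | h | h
      · exact h
      · exact absurd (h ▸ hx) hy.1
      · exact absurd (h ▸ hx) hy'.1

end Pool.Agent.Helper43.F2
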