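import Pool.Agent.Helper73.F2.St

/-!
# Project F2 (MP_7b75b3_co): module EX (a good set of least cardinality exists)
-/

namespace Pool.Agent.Helper43.F2

open _root_.F2 Finset

theorem hEX : StEX := by
  classical
  intro V κ _ _ _ _ G b T hT hI
  have hgood : ∃ X : Finset V, Good G b X := by
    set F : Finset (Finset V) := univ.filter (fun X : Finset V =>
      (∀ x ∈ X, ∀ y ∈ X, ¬ G.Adj x y) ∧ univ.image T ⊆ X) with hFdef
    have hne : F.Nonempty := by
      refine ⟨univ.image T, ?_⟩
      rw [hFdef, Finset.mem_filter]
      refine ⟨Finset.mem_univ _, ?_, subset_rfl⟩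
      intro x hx y hy
      rw [Finset.mem_image] at hx hy
      obtain ⟨i, _, rfl⟩ := hx
      obtain ⟨j, _, rfl⟩ := hy
      exact hI i j
    obtain ⟨X, hX, hmax⟩ := Finset.exists_max_image F Finset.card hne
    rw [hFdef, Finset.mem_filter] at hX
    obtain ⟨_, hind, hsub⟩ := hX
    refine ⟨X, hind, ?_, ?_⟩
    · intro i
      exact ⟨T i, hsub (Finset.mem_image_of_mem T (Finset.mem_univ i)), hT i⟩
    · intro x _
      by_cases hx : x ∈ X
      · exact ⟨x, hx, SimpleGraph.Reachable.refl x⟩
      · by_contra hcon
        have hno : ∀ z ∈ X, ¬ G.Adj x z := fun z hz hadj => hcon ⟨z, hz, hadj.reachable⟩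
        have hmem : insert x X ∈ F := by
          rw [hFdef, Finset.mem_filter]
          refine ⟨Finset.mem_univ _, ?_, hsub.trans (Finset.subset_insert _ _)⟩
          intro u hu w hw
          rw [Finset.mem_insert] at hu hw
          rcases hu with hu | hu
          · subst hu
            rcases hw with hw | hw
            · subst hw
              exact G.loopless.irrefl _
            · exact hno w hw
          · rcases hw with hw | hw
            · subst hw
              exact fun h => hno u hu h.symm
            · exact hind u hu w hw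
        have h1 := hmax _ hmem
        rw [Finset.card_insert_of_notMem hx] at h1
        omega
  obtain ⟨X₀, hX₀⟩ := hgood
  have hne : (univ.filter (fun X : Finset V => Good G b X)).Nonempty :=
    ⟨X₀, by rw [Finset.mem_filter]; exact ⟨Finset.mem_univ _, hX₀⟩⟩
  obtain ⟨X, hX, hmin⟩ := Finset.exists_min_image _ Finset.card hne
  rw [Finset.mem_filter] at hX
  refine ⟨X, hX.2, fun Y hY => hmin Y ?_⟩
  rw [Finset.mem_filter]
  exact ⟨Finset.mem_univ _, hY⟩

end Pool.Agent.Helper43.F2
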