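import Pool.Agent.Helper73.F2.St

/-!
# Project F2 (MP_7b75b3_co): module HDG
-/

namespace Pool.Agent.Helper43.F2

open _root_.F2 Finset

theorem hHDG : StHDG := by
  intro hATT V κ _ _ _ _ G b X P hD hF hP x p q r hp hq hr
  obtain ⟨_, _, sp, n1, hn1, a1⟩ := hp
  obtain ⟨_, _, sq, n2, hn2, a2⟩ := hq
  obtain ⟨_, _, sr, n3, hn3, a3⟩ := hr
  rcases hD x n1 n2 n3 hn1 hn2 hn3 with h | h | h
  · subst h
    exact Or.inl (hATT V κ G b X P hD hF hP n1 p q sp sq a1 a2)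
  · subst h
    exact Or.inr (Or.inl (hATT V κ G b X P hD hF hP n1 p r sp sr a1 a3))
  · subst h
    exact Or.inr (Or.inr (hATT V κ G b X P hD hF hP n2 q r sq sr a2 a3))

end Pool.Agent.Helper43.F2
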