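import Pool.Agent.Helper73.F2.St

/-!
# Project F2 (MP_7b75b3_co): module PTH (shortest paths in a relation)
-/

namespace Pool.Agent.Helper43.F2

open _root_.F2 Finset

theorem hPTH : StPTH := by
  classical
  intro κ r i j hij hr
  have hex : ∃ s : ℕ, ∃ B : ℕ → κ, B 0 = i ∧ B s = j ∧ ∀ k < s, r (B k) (B (k + 1)) := by
    clear hij
    induction hr with
    | refl => exact ⟨0, fun _ => i, rfl, rfl, fun k hk => absurd hk (by omega)⟩
    | @tail c d _ hcd ih =>
      obtain ⟨s, B, h0, hs, hst⟩ := ih
      refine ⟨s + 1, fun m => if m ≤ s then B m else d, by simpa using h0, by simp, ?_⟩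
      intro k hk
      by_cases h : k = s
      · subst h
        simp [hs, hcd]
      · have h1 : k ≤ s := by omega
        have h2 : k + 1 ≤ s := by omega
        simp only [h1, h2, if_true]
        exact hst k (by omega)
  obtain ⟨B, h0, hs, hst⟩ := Nat.find_spec hex
  have hmin : ∀ m < Nat.find hex,
      ¬ ∃ B : ℕ → κ, B 0 = i ∧ B m = j ∧ ∀ k < m, r (B k) (B (k + 1)) :=
    fun m hm => Nat.find_min hex hm
  generalize Nat.find hex = s at hs hst hmin
  have hinj : ∀ k l, k < l → l ≤ s → B k ≠ B l := by
    intro k l hkl hl hB
    refine hmin (s - (l - k)) (by omega) ⟨fun m => if m ≤ k then B m else B (m + (l - k)),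
      by simpa using h0, ?_, ?_⟩
    · by_cases h : s - (l - k) ≤ k
      · have h1 : s - (l - k) = k := by omega
        have h2 : l = s := by omega
        simp only [h1, le_refl, if_true]
        rw [hB, h2, hs]
      · simp only [h, if_false]
        rw [show s - (l - k) + (l - k) = s by omega, hs]
    · intro m hm
      by_cases h1 : m + 1 ≤ k
      · have h2 : m ≤ k := by omega
        simp only [h1, h2, if_true]
        exact hst m (by omega)
      · by_cases h2 : m = k
        · subst h2
          simp only [le_refl, if_true, h1, if_false]
          rw [hB, show m + 1 + (l - m) = l + 1 by omega]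
          exact hst l (by omega)
        · have h3 : ¬ m ≤ k := by omega
          simp only [h1, h3, if_false]
          rw [show m + 1 + (l - k) = m + (l - k) + 1 by omega]
          exact hst _ (by omega)
  refine ⟨s, B, ?_, h0, hs, hst, ?_, ?_⟩
  · by_contra h
    have h1 : s = 0 := by omega
    subst h1
    exact hij (h0.symm.trans hs)
  · intro k hk l hl hB
    rcases lt_trichotomy k l with h | h | h
    · exact absurd hB (hinj k l h hl)
    · exact h
    · exact absurd hB.symm (hinj l k h hk)
  · intro k hk hrk
    refine hmin (k + 1) hk ⟨fun m => if m ≤ k then B m else j, by simpa using h0, by simp, ?_⟩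
    intro m hm
    by_cases h1 : m = k
    · subst h1
      simpa using hrk
    · have h2 : m ≤ k := by omega
      have h3 : m + 1 ≤ k := by omega
      simp only [h2, h3, if_true]
      exact hst m (by omega)

end Pool.Agent.Helper43.F2
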