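import Pool.Agent.Helper73.F2.St

/-!
# Project F2 (MP_7b75b3_co): module SUB (induction hypothesis for fewer blocks)
-/

namespace Pool.Agent.Helper43.F2

open _root_.F2 Finset

theorem hSUB : StSUB := by
  intro V κ _ _ _ _ b B hF hI G' hdeg
  have hcard : Fintype.card {i : κ // i ≠ B} < Fintype.card κ :=
    Fintype.card_subtype_lt (x := B) (by simp)
  obtain ⟨g, hg1, hg2⟩ := hI {v : V // b v ≠ B} {i : κ // i ≠ B}
    (G'.comap Subtype.val) (fun v => ⟨b v.1, v.2⟩) hcard
    (by
      intro x p q r hp hq hr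
      rcases hdeg x.1 p.1 q.1 r.1 x.2 p.2 q.2 r.2 hp hq hr with h | h | h
      · exact Or.inl (Subtype.ext h)
      · exact Or.inr (Or.inl (Subtype.ext h))
      · exact Or.inr (Or.inr (Subtype.ext h)))
    (by
      intro i
      rw [← hF i.1]
      refine Finset.card_bij (fun v _ => v.1) ?_ ?_ ?_
      · intro v hv
        rw [Finset.mem_filter] at hv ⊢
        exact ⟨Finset.mem_univ _, congrArg Subtype.val hv.2⟩
      · intro v _ w _ h
        exact Subtype.ext h
      · intro v hv
        rw [Finset.mem_filter] at hv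
        refine ⟨⟨v, by rw [hv.2]; exact i.2⟩, ?_, rfl⟩
        rw [Finset.mem_filter]
        exact ⟨Finset.mem_univ _, Subtype.ext hv.2⟩)
  refine ⟨fun v => if h : b v ≠ B then g ⟨v, h⟩ else 0, ?_, ?_⟩
  · intro x y hx hy hxy
    simp only [hx, hy, ne_eq, not_false_eq_true, dif_pos]
    exact hg1 ⟨x, hx⟩ ⟨y, hy⟩ hxy
  · intro x y hx hxy h
    have hy : b y ≠ B := hxy ▸ hx
    simp only [hx, hy, ne_eq, not_false_eq_true, dif_pos] at h
    have := hg2 ⟨x, hx⟩ ⟨y, hy⟩ (Subtype.ext hxy) h
    exact congrArg Subtype.val this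

end Pool.Agent.Helper43.F2
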